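import Pool.Agent.TV17.Dense

set_option autoImplicit false

/-!
# Arrangement (helper file for MP_d6084f_co)

`N` blocks of size `b`, `h` fixed points and `q` unused points are put into a set `X`; a family
containing a given proportion of the `k`-subsets of `X` contains for some arrangement at least the
same proportion of the sets made of the fixed points and of `a` points of every block.

Paper proof. `Idx` has `b N + h + q = |X|` elements, take a bijection `e0 : Idx -> X` and let
`F0` be the set of the `B : Sub Idx (a N + h)` with `B.map e0 ∈ F`; `|F0| M ≥ C(|X|, a N + h)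
= card (Sub Idx (a N + h))`. `Perm Idx` acts transitively on `Sub Idx (a N + h)` (`permSub_trans`),
so by `card_smul_mem` for every `w` the number of `σ` with `σ • baseSet w ∈ F0` is
`|Perm| |F0| / card (Sub Idx _)`. Sum over `w` and exchange: some `σ` has at least
`W |F0| / card (Sub Idx _) ≥ W / M` of the `w` (`W = card (Sub (Fin b) a) ^ N`). `e = e0 after σ`.
-/

namespace Pool.Agent.DX17

open Pool.Agent.TV17

/-- the index type -/
abbrev Idx (N b h q : ℕ) : Type := (Fin N × Fin b) ⊕ (Fin h ⊕ Fin q)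

/-- the set of indices made of the fixed points and of the letters of `w` -/
def baseSet {N b h q a : ℕ} (w : Fin N → Sub (Fin b) a) : Finset (Idx N b h q) :=
  (Finset.univ.filter (fun p : Fin N × Fin b => p.2 ∈ (w p.1).1)).disjSum
    ((Finset.univ : Finset (Fin h)).disjSum (∅ : Finset (Fin q)))

open Finset

theorem card_baseSet {N b h q a : ℕ} (w : Fin N → Sub (Fin b) a) :
    (baseSet (h := h) (q := q) w).card = a * N + h := by
  unfold baseSet
  rw [card_disjSum, card_disjSum, card_univ, Fintype.card_fin, card_empty, add_zero]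
  congr 1
  rw [card_filter, Fintype.sum_prod_type]
  have h1 : ∀ i : Fin N, (∑ j : Fin b, if j ∈ (w i).1 then 1 else 0) = a := by
    intro i
    rw [← card_filter]
    have h2 : (univ.filter (fun j : Fin b => j ∈ (w i).1)) = (w i).1 := by
      ext j
      simp
    rw [h2]
    exact (w i).2
  rw [sum_congr rfl fun i _ => h1 i, sum_const, card_univ, Fintype.card_fin, smul_eq_mul, mul_comm]

theorem arrange (N b h q a : ℕ) (X : Finset ℕ) (F : Set (Finset ℕ))
    (hX : X.card = b * N + h + q) (M : ℝ) (hM : 0 < M)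
    (hF : (X.card.choose (a * N + h) : ℝ) ≤
      M * ({A : Finset ℕ | A ∈ F ∧ A ⊆ X ∧ A.card = a * N + h}.ncard : ℝ)) :
    ∃ e : Idx N b h q ↪ ℕ, Finset.univ.map e = X ∧
      ∀ S : Finset (Fin N → Sub (Fin b) a),
        (∀ w, w ∈ S ↔ (baseSet (h := h) (q := q) w).map e ∈ F) →
        (Fintype.card (Sub (Fin b) a) : ℝ) ^ N ≤ M * S.card := by
  classical
  have hI : Fintype.card (Idx N b h q) = X.card := by
    rw [hX, Fintype.card_sum, Fintype.card_sum, Fintype.card_prod, Fintype.card_fin,
      Fintype.card_fin, Fintype.card_fin, Fintype.card_fin]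
    ring
  have e1 : Idx N b h q ≃ X := Fintype.equivOfCardEq (by rw [hI, Fintype.card_coe])
  obtain ⟨e0, he0⟩ : ∃ e0 : Idx N b h q ↪ ℕ, univ.map e0 = X := by
    refine ⟨e1.toEmbedding.trans (Function.Embedding.subtype _), ?_⟩
    ext x
    rw [mem_map]
    constructor
    · rintro ⟨i, _, rfl⟩
      exact (e1 i).2
    · intro hx
      exact ⟨e1.symm ⟨x, hx⟩, mem_univ _, by simp⟩
  obtain ⟨k, hk⟩ : ∃ k : ℕ, k = a * N + h := ⟨_, rfl⟩
  rw [← hk] at hF
  obtain ⟨F0, hF0⟩ : ∃ F0 : Finset (Sub (Idx N b h q) k), ∀ B, B ∈ F0 ↔ B.1.map e0 ∈ F :=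
    ⟨univ.filter (fun B => B.1.map e0 ∈ F), fun B => by rw [mem_filter]; simp⟩
  have hn : {A : Finset ℕ | A ∈ F ∧ A ⊆ X ∧ A.card = k}.ncard ≤ F0.card := by
    have h1 : {A : Finset ℕ | A ∈ F ∧ A ⊆ X ∧ A.card = k} ⊆
        (↑(F0.image (fun B => B.1.map e0)) : Set (Finset ℕ)) := by
      rintro A ⟨hA, hAX, hAk⟩
      have h2 : (univ.filter (fun i => e0 i ∈ A)).map e0 = A := by
        ext x
        rw [mem_map]
        constructor
        · rintro ⟨i, hi, rfl⟩
          exact (mem_filter.1 hi).2
        · intro hx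
          have h3 : x ∈ univ.map e0 := by rw [he0]; exact hAX hx
          obtain ⟨i, _, rfl⟩ := mem_map.1 h3
          exact ⟨i, mem_filter.2 ⟨mem_univ _, hx⟩, rfl⟩
      have h4 : (univ.filter (fun i => e0 i ∈ A)).card = k := by
        rw [← hAk, ← card_map e0, h2]
      rw [mem_coe, mem_image]
      exact ⟨⟨_, h4⟩, (hF0 _).2 (by rw [h2]; exact hA), h2⟩
    refine (Set.ncard_le_ncard h1 (Finset.finite_toSet _)).trans ?_
    rw [Set.ncard_coe_finset]
    exact card_image_le
  have hcS : Fintype.card (Sub (Idx N b h q) k) = X.card.choose k := by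
    rw [Fintype.card_finset_len, hI]
  obtain ⟨bw, hbw⟩ : ∃ bw : (Fin N → Sub (Fin b) a) → Sub (Idx N b h q) k,
      ∀ w, (bw w).1 = baseSet w := ⟨fun w => ⟨baseSet w, by rw [hk]; exact card_baseSet w⟩,
    fun _ => rfl⟩
  have hW : (Fintype.card (Fin N → Sub (Fin b) a) : ℝ) = (Fintype.card (Sub (Fin b) a) : ℝ) ^ N := by
    rw [Fintype.card_fun, Fintype.card_fin]
    push_cast
    rfl
  obtain ⟨σ, hσ⟩ : ∃ σ : Equiv.Perm (Idx N b h q), (Fintype.card (Sub (Fin b) a) : ℝ) ^ N ≤
      M * ((univ.filter (fun w => σ • bw w ∈ F0)).card : ℝ) := by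
    by_contra hcon
    push Not at hcon
    rw [← hW] at hcon
    have hWp : (0 : ℝ) < Fintype.card (Fin N → Sub (Fin b) a) :=
      lt_of_le_of_lt (by positivity) (hcon 1)
    obtain ⟨w0⟩ : Nonempty (Fin N → Sub (Fin b) a) := by
      rw [← Fintype.card_pos_iff]
      exact_mod_cast hWp
    have hSp : (0 : ℝ) < Fintype.card (Sub (Idx N b h q) k) := by
      exact_mod_cast Fintype.card_pos_iff.2 ⟨bw w0⟩
    have hGp : (0 : ℝ) < Fintype.card (Equiv.Perm (Idx N b h q)) := by
      exact_mod_cast Fintype.card_pos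
    have hs : (∑ w : Fin N → Sub (Fin b) a,
        ((univ.filter (fun σ : Equiv.Perm (Idx N b h q) => σ • bw w ∈ F0)).card : ℝ)) =
        ∑ σ : Equiv.Perm (Idx N b h q), ((univ.filter (fun w => σ • bw w ∈ F0)).card : ℝ) := by
      simp only [card_filter, Nat.cast_sum]
      rw [sum_comm]
    have h1 : ∀ w, ((univ.filter (fun σ : Equiv.Perm (Idx N b h q) => σ • bw w ∈ F0)).card : ℝ) *
        Fintype.card (Sub (Idx N b h q) k) =
        Fintype.card (Equiv.Perm (Idx N b h q)) * (F0.card : ℝ) := by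
      intro w
      have h0 := card_smul_mem (G := Equiv.Perm (Idx N b h q))
        (permSub_trans (Idx N b h q) k) F0 (bw w)
      have h9 : (univ.filter (fun σ : Equiv.Perm (Idx N b h q) => σ • bw w ∈ F0)).card *
          Fintype.card (Sub (Idx N b h q) k) =
          Fintype.card (Equiv.Perm (Idx N b h q)) * F0.card := by
        rw [← h0]
        congr!
      exact_mod_cast h9
    have h2 : (∑ σ : Equiv.Perm (Idx N b h q),
        ((univ.filter (fun w => σ • bw w ∈ F0)).card : ℝ)) *
        Fintype.card (Sub (Idx N b h q) k) =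
        Fintype.card (Fin N → Sub (Fin b) a) *
          (Fintype.card (Equiv.Perm (Idx N b h q)) * (F0.card : ℝ)) := by
      rw [← hs, sum_mul, sum_congr rfl fun w _ => h1 w, sum_const, card_univ, nsmul_eq_mul]
    have h3 : M * (∑ σ : Equiv.Perm (Idx N b h q),
        ((univ.filter (fun w => σ • bw w ∈ F0)).card : ℝ)) <
        Fintype.card (Equiv.Perm (Idx N b h q)) * Fintype.card (Fin N → Sub (Fin b) a) := by
      rw [mul_sum]
      calc ∑ σ : Equiv.Perm (Idx N b h q),
          M * ((univ.filter (fun w => σ • bw w ∈ F0)).card : ℝ)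
          < ∑ _σ : Equiv.Perm (Idx N b h q), (Fintype.card (Fin N → Sub (Fin b) a) : ℝ) :=
            sum_lt_sum_of_nonempty univ_nonempty fun σ _ => hcon σ
        _ = _ := by rw [sum_const, card_univ, nsmul_eq_mul]
    have h4 : (Fintype.card (Sub (Idx N b h q) k) : ℝ) ≤ M * F0.card := by
      rw [hcS]
      exact hF.trans (mul_le_mul_of_nonneg_left (by exact_mod_cast hn) hM.le)
    have h5 := mul_lt_mul_of_pos_right h3 hSp
    have h6 : M * (∑ σ : Equiv.Perm (Idx N b h q),
        ((univ.filter (fun w => σ • bw w ∈ F0)).card : ℝ)) *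
        Fintype.card (Sub (Idx N b h q) k) =
        (Fintype.card (Equiv.Perm (Idx N b h q)) * Fintype.card (Fin N → Sub (Fin b) a)) *
          (M * F0.card) := by
      rw [mul_assoc, h2]; ring
    rw [h6] at h5
    have h7 := mul_le_mul_of_nonneg_left h4 (mul_pos hGp hWp).le
    linarith
  refine ⟨σ.toEmbedding.trans e0, ?_, fun S hS => ?_⟩
  · rw [← map_map, ← he0]
    congr 1
    exact map_univ_equiv σ
  · have h1 : S = univ.filter (fun w => σ • bw w ∈ F0) := by
      ext w
      rw [hS, mem_filter, hF0, permSub_val, hbw, map_map]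
      exact ⟨fun h => ⟨mem_univ _, h⟩, fun h => h.2⟩
    rw [h1]
    exact hσ

end Pool.Agent.DX17
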