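import Mathlib

set_option autoImplicit false

/-!
# Concentration on a product of finite sets (helper file for MP_d6084f_co)

A subset `S` of `Ω ^ N` with `M * |S| ≥ |Ω| ^ N`: less than a quarter of all points are at Hamming
distance more than `s` from `S`, if `(s + 1) ^ 2 > N log (4 M)`.
-/

namespace Pool.Agent.DX17

lemma dist_cons {Ω : Type} [DecidableEq Ω] {N : ℕ} (a b : Ω) (x y : Fin N → Ω) :
    hammingDist (Fin.cons a x : Fin (N + 1) → Ω) (Fin.cons b y)
      = (if a ≠ b then 1 else 0) + hammingDist x y := by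
  unfold hammingDist
  rw [Finset.card_filter, Finset.card_filter, Fin.sum_univ_succ]
  simp only [Fin.cons_zero, Fin.cons_succ]

theorem exp_moment {Ω : Type} [Fintype Ω] [DecidableEq Ω] (z : ℝ) (hz : 1 ≤ z) (N : ℕ)
    (S : Finset (Fin N → Ω)) (hS : S.Nonempty) :
    ∃ f : (Fin N → Ω) → ℕ, (∀ x, ∃ y ∈ S, hammingDist x y ≤ f x) ∧
      (∑ x, z ^ f x) * S.card ≤ ((Fintype.card Ω : ℝ) ^ N) ^ 2 * ((1 + z) ^ 2 / (4 * z)) ^ N := by
  classical
  induction N with
  | zero =>
    refine ⟨fun _ => 0, ?_, ?_⟩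
    · intro x
      obtain ⟨y, hy⟩ := hS
      exact ⟨y, hy, by simp [Subsingleton.elim x y]⟩
    · have h1 : (S.card : ℝ) ≤ 1 := by
        have := Finset.card_le_univ S
        simp at this
        exact_mod_cast this
      simpa using h1
  | succ N ih =>
    set c : ℝ := (1 + z) ^ 2 / (4 * z) with hc
    set K : ℝ := (Fintype.card Ω : ℝ) with hK
    set B : ℝ := (K ^ N) ^ 2 * c ^ N with hB
    have hz0 : 0 < z := by linarith
    have hB0 : 0 ≤ B := by positivity
    let Sy : Ω → Finset (Fin N → Ω) := fun y =>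
      Finset.univ.filter (fun x => (Fin.cons y x : Fin (N + 1) → Ω) ∈ S)
    let P : Finset (Fin N → Ω) :=
      Finset.univ.filter (fun x => ∃ y, (Fin.cons y x : Fin (N + 1) → Ω) ∈ S)
    have hPne : P.Nonempty := by
      obtain ⟨x, hx⟩ := hS
      refine ⟨Fin.tail x, ?_⟩
      simp only [P, Finset.mem_filter, Finset.mem_univ, true_and]
      exact ⟨x 0, by rw [Fin.cons_self_tail]; exact hx⟩
    have hPpos : (0 : ℝ) < P.card := by exact_mod_cast hPne.card_pos
    have hle : ∀ y, ((Sy y).card : ℝ) ≤ P.card := by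
      intro y
      have : Sy y ⊆ P := by
        intro x hx
        simp only [Sy, P, Finset.mem_filter, Finset.mem_univ, true_and] at hx ⊢
        exact ⟨y, hx⟩
      exact_mod_cast Finset.card_le_card this
    obtain ⟨fP, hfP, hfPs⟩ := ih P hPne
    have hy : ∀ y, ∃ f : (Fin N → Ω) → ℕ,
        (∀ x, ∃ w ∈ S, hammingDist (Fin.cons y x : Fin (N + 1) → Ω) w ≤ f x) ∧
        (∑ x, z ^ f x) * (P.card : ℝ) ^ 2 ≤ B * (P.card * (1 + z) - z * (Sy y).card) := by
      intro y
      by_cases hg : (P.card : ℝ) ≤ z * (Sy y).card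
      · have hne : (Sy y).Nonempty := by
          rw [← Finset.card_pos]
          by_contra h0
          have : (Sy y).card = 0 := by omega
          rw [this] at hg
          simp at hg
          rw [hg] at hPne
          simp at hPne
        obtain ⟨f, hf, hfs⟩ := ih (Sy y) hne
        refine ⟨f, ?_, ?_⟩
        · intro x
          obtain ⟨w, hw, hd⟩ := hf x
          refine ⟨Fin.cons y w, ?_, ?_⟩
          · simpa [Sy] using hw
          · rw [dist_cons]; simpa using hd
        · have hp : (0 : ℝ) < (Sy y).card := by exact_mod_cast hne.card_pos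
          have hA : 0 ≤ ∑ x, z ^ f x := Finset.sum_nonneg (fun x _ => by positivity)
          have h1 : (P.card : ℝ) ^ 2 ≤ (Sy y).card * (P.card * (1 + z) - z * (Sy y).card) := by
            nlinarith [mul_nonneg (sub_nonneg.2 (hle y)) (sub_nonneg.2 hg)]
          have h2 : 0 ≤ P.card * (1 + z) - z * (Sy y).card := by
            nlinarith [mul_nonneg hz0.le (sub_nonneg.2 (hle y))]
          calc (∑ x, z ^ f x) * (P.card : ℝ) ^ 2
              ≤ (∑ x, z ^ f x) * ((Sy y).card * (P.card * (1 + z) - z * (Sy y).card)) :=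
                mul_le_mul_of_nonneg_left h1 hA
            _ = ((∑ x, z ^ f x) * (Sy y).card) * (P.card * (1 + z) - z * (Sy y).card) := by ring
            _ ≤ B * (P.card * (1 + z) - z * (Sy y).card) :=
                mul_le_mul_of_nonneg_right hfs h2
      · push Not at hg
        refine ⟨fun x => fP x + 1, ?_, ?_⟩
        · intro x
          obtain ⟨w, hw, hd⟩ := hfP x
          simp only [P, Finset.mem_filter, Finset.mem_univ, true_and] at hw
          obtain ⟨y', hy'⟩ := hw
          refine ⟨Fin.cons y' w, hy', ?_⟩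
          rw [dist_cons]
          change _ ≤ fP x + 1
          split_ifs <;> omega
        · have e : (∑ x, z ^ (fP x + 1)) = z * ∑ x, z ^ fP x := by
            rw [Finset.mul_sum]
            exact Finset.sum_congr rfl (fun x _ => by rw [pow_succ]; ring)
          rw [e]
          calc z * (∑ x, z ^ fP x) * (P.card : ℝ) ^ 2
              = z * P.card * ((∑ x, z ^ fP x) * P.card) := by ring
            _ ≤ z * P.card * B := mul_le_mul_of_nonneg_left hfPs (by positivity)
            _ ≤ B * (P.card * (1 + z) - z * (Sy y).card) := by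
                nlinarith [mul_nonneg hB0 (sub_nonneg.2 hg.le)]
    choose f hf hfs using hy
    refine ⟨fun x => f (x 0) (Fin.tail x), ?_, ?_⟩
    · intro x
      have := hf (x 0) (Fin.tail x)
      rw [Fin.cons_self_tail] at this
      exact this
    · have e1 : (∑ x : Fin (N + 1) → Ω, z ^ f (x 0) (Fin.tail x)) = ∑ y, ∑ x, z ^ f y x := by
        rw [← Fintype.sum_prod_type']
        symm
        refine Fintype.sum_equiv (Fin.consEquiv (fun _ => Ω)) _ _ ?_
        rintro ⟨y, x⟩
        simp [Fin.consEquiv]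
      have e2 : (S.card : ℝ) = ∑ y, ((Sy y).card : ℝ) := by
        have : S.card = ∑ y, (Sy y).card := by
          have h1 : S.card = ∑ x : Fin (N + 1) → Ω, if x ∈ S then 1 else 0 := by
            rw [← Finset.card_filter]; simp
          rw [h1]
          have h2 : ∀ y, (Sy y).card = ∑ x : Fin N → Ω,
              if (Fin.cons y x : Fin (N + 1) → Ω) ∈ S then 1 else 0 := by
            intro y
            rw [← Finset.card_filter]
          rw [Finset.sum_congr rfl (fun y _ => h2 y), ← Fintype.sum_prod_type']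
          symm
          refine Fintype.sum_equiv (Fin.consEquiv (fun _ => Ω)) _ _ ?_
          rintro ⟨y, x⟩
          simp [Fin.consEquiv]
        rw [this]; push_cast; rfl
      rw [e1]
      have h3 : (∑ y, ∑ x, z ^ f y x) * (P.card : ℝ) ^ 2
          ≤ B * (K * (P.card * (1 + z)) - z * S.card) := by
        rw [Finset.sum_mul]
        refine (Finset.sum_le_sum (fun y _ => hfs y)).trans ?_
        have e3 : ∑ y, B * ((P.card : ℝ) * (1 + z) - z * (Sy y).card)
            = B * (K * (P.card * (1 + z)) - z * S.card) := by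
          rw [← Finset.mul_sum, Finset.sum_sub_distrib, e2, Finset.mul_sum (a := z)]
          simp [hK]
        exact e3.le
      have h4 : (S.card : ℝ) * (K * (P.card * (1 + z)) - z * S.card)
          ≤ K ^ 2 * (P.card : ℝ) ^ 2 * c := by
        rw [hc, mul_div_assoc', le_div_iff₀ (by positivity)]
        nlinarith [sq_nonneg (2 * z * S.card - K * (P.card * (1 + z)))]
      have h5 : ((∑ y, ∑ x, z ^ f y x) * S.card) * (P.card : ℝ) ^ 2
          ≤ ((K ^ (N + 1)) ^ 2 * c ^ (N + 1)) * (P.card : ℝ) ^ 2 := by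
        calc ((∑ y, ∑ x, z ^ f y x) * S.card) * (P.card : ℝ) ^ 2
            = ((∑ y, ∑ x, z ^ f y x) * (P.card : ℝ) ^ 2) * S.card := by ring
          _ ≤ (B * (K * (P.card * (1 + z)) - z * S.card)) * S.card :=
              mul_le_mul_of_nonneg_right h3 (by positivity)
          _ = B * (S.card * (K * (P.card * (1 + z)) - z * S.card)) := by ring
          _ ≤ B * (K ^ 2 * (P.card : ℝ) ^ 2 * c) := mul_le_mul_of_nonneg_left h4 hB0
          _ = ((K ^ (N + 1)) ^ 2 * c ^ (N + 1)) * (P.card : ℝ) ^ 2 := by rw [hB]; ring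
      exact le_of_mul_le_mul_right h5 (by positivity)


lemma c_le (l : ℝ) : (1 + Real.exp l) ^ 2 / (4 * Real.exp l) ≤ Real.exp (l ^ 2 / 4) := by
  have h1 : Real.exp l = Real.exp (l / 2) ^ 2 := by
    rw [← Real.exp_nat_mul]; congr 1; push_cast; ring
  have ht : 0 < Real.exp (l / 2) := Real.exp_pos _
  have h2 : (1 + Real.exp l) ^ 2 / (4 * Real.exp l) = Real.cosh (l / 2) ^ 2 := by
    rw [Real.cosh_eq, Real.exp_neg, h1]
    field_simp
    ring
  rw [h2]
  have h3 := Real.cosh_le_exp_half_sq (l / 2)
  have h4 : 0 ≤ Real.cosh (l / 2) := (Real.cosh_pos _).le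
  calc Real.cosh (l / 2) ^ 2 ≤ Real.exp ((l / 2) ^ 2 / 2) ^ 2 := pow_le_pow_left₀ h4 h3 2
    _ = Real.exp (l ^ 2 / 4) := by
        rw [← Real.exp_nat_mul]; congr 1; push_cast; ring

theorem conc {Ω : Type} [Fintype Ω] [DecidableEq Ω] [Nonempty Ω] (N : ℕ)
    (S : Finset (Fin N → Ω)) (M : ℝ) (hM : 0 < M)
    (hS : (Fintype.card Ω : ℝ) ^ N ≤ M * S.card) (s : ℕ)
    (hs : (N : ℝ) * Real.log (4 * M) < ((s : ℝ) + 1) ^ 2) :
    4 * (Finset.univ.filter (fun x : Fin N → Ω => ∀ y ∈ S, s < hammingDist x y)).card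
      < Fintype.card Ω ^ N := by
  classical
  have hKpos : 0 < Fintype.card Ω := Fintype.card_pos
  have hKp : (0 : ℝ) < (Fintype.card Ω : ℝ) ^ N := by positivity
  have hSpos : (0 : ℝ) < S.card := by
    by_contra h
    have h0 : (S.card : ℝ) = 0 := le_antisymm (not_lt.1 h) (by positivity)
    rw [h0] at hS
    linarith
  have hSne : S.Nonempty := by
    rw [← Finset.card_pos]; exact_mod_cast hSpos
  rcases Nat.eq_zero_or_pos N with hN | hN
  · subst hN
    obtain ⟨y, hy⟩ := hSne
    have : (Finset.univ.filter (fun x : Fin 0 → Ω => ∀ y ∈ S, s < hammingDist x y)) = ∅ := by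
      apply Finset.filter_eq_empty_iff.2
      intro x _ hx
      have := hx y hy
      rw [Subsingleton.elim x y] at this
      simp at this
    rw [this]
    simp
  · have hNr : (0 : ℝ) < N := by exact_mod_cast hN
    set l : ℝ := 2 * ((s : ℝ) + 1) / N with hl
    have hl0 : 0 ≤ l := by positivity
    have hz : 1 ≤ Real.exp l := Real.one_le_exp hl0
    obtain ⟨f, hf, hfs⟩ := exp_moment (Real.exp l) hz N S hSne
    set bad := Finset.univ.filter (fun x : Fin N → Ω => ∀ y ∈ S, s < hammingDist x y) with hbad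
    set K : ℝ := (Fintype.card Ω : ℝ) ^ N with hK
    set c : ℝ := (1 + Real.exp l) ^ 2 / (4 * Real.exp l) with hc
    have hc0 : 0 ≤ c := by positivity
    have h1 : (bad.card : ℝ) * Real.exp l ^ (s + 1) ≤ ∑ x, Real.exp l ^ f x := by
      have h2 : ∑ x ∈ bad, Real.exp l ^ (s + 1) ≤ ∑ x ∈ bad, Real.exp l ^ f x := by
        refine Finset.sum_le_sum (fun x hx => ?_)
        apply pow_le_pow_right₀ hz
        obtain ⟨y, hy, hd⟩ := hf x
        have := (Finset.mem_filter.1 hx).2 y hy
        omega
      rw [Finset.sum_const, nsmul_eq_mul] at h2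
      refine h2.trans ?_
      exact Finset.sum_le_sum_of_subset_of_nonneg (Finset.subset_univ _)
        (fun x _ _ => by positivity)
    have h3 : (bad.card : ℝ) * Real.exp l ^ (s + 1) * K ≤ M * (K ^ 2 * c ^ N) := by
      have hbz : 0 ≤ (bad.card : ℝ) * Real.exp l ^ (s + 1) := by positivity
      calc (bad.card : ℝ) * Real.exp l ^ (s + 1) * K
          ≤ (bad.card : ℝ) * Real.exp l ^ (s + 1) * (M * S.card) :=
            mul_le_mul_of_nonneg_left hS hbz
        _ = M * (((bad.card : ℝ) * Real.exp l ^ (s + 1)) * S.card) := by ring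
        _ ≤ M * ((∑ x, Real.exp l ^ f x) * S.card) := by
            apply mul_le_mul_of_nonneg_left _ hM.le
            exact mul_le_mul_of_nonneg_right h1 hSpos.le
        _ ≤ M * (K ^ 2 * c ^ N) := mul_le_mul_of_nonneg_left hfs hM.le
    have h4 : (bad.card : ℝ) * Real.exp l ^ (s + 1) ≤ M * K * c ^ N := by
      have : ((bad.card : ℝ) * Real.exp l ^ (s + 1)) * K ≤ (M * K * c ^ N) * K := by
        refine h3.trans (le_of_eq ?_); ring
      exact le_of_mul_le_mul_right this hKp
    have h5 : c ^ N ≤ Real.exp (N * (l ^ 2 / 4)) := by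
      rw [Real.exp_nat_mul]
      exact pow_le_pow_left₀ hc0 (c_le l) N
    have h6 : Real.exp l ^ (s + 1) = Real.exp (((s : ℝ) + 1) * l) := by
      rw [← Real.exp_nat_mul]; push_cast; rfl
    have h7 : (bad.card : ℝ) * Real.exp (((s : ℝ) + 1) * l)
        ≤ M * K * Real.exp (N * (l ^ 2 / 4)) := by
      rw [← h6]
      exact h4.trans (mul_le_mul_of_nonneg_left h5 (by positivity))
    have h8 : Real.exp (N * (l ^ 2 / 4)) * (4 * M) < Real.exp (((s : ℝ) + 1) * l) := by
      rw [← Real.exp_log (by positivity : (0 : ℝ) < 4 * M), ← Real.exp_add]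
      rw [Real.exp_lt_exp]
      have e : ((s : ℝ) + 1) * l - N * (l ^ 2 / 4) = ((s : ℝ) + 1) ^ 2 / N := by
        rw [hl]; field_simp; ring
      have : Real.log (4 * M) < ((s : ℝ) + 1) ^ 2 / N := by
        rw [lt_div_iff₀ hNr]; linarith
      linarith
    have h9 : 4 * (bad.card : ℝ) < K := by
      have hE : 0 < Real.exp (N * (l ^ 2 / 4)) := Real.exp_pos _
      by_contra hcon
      push Not at hcon
      have hb0 : (0 : ℝ) < bad.card := by linarith
      have : (bad.card : ℝ) * (Real.exp (N * (l ^ 2 / 4)) * (4 * M))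
          < M * K * Real.exp (N * (l ^ 2 / 4)) :=
        lt_of_lt_of_le (mul_lt_mul_of_pos_left h8 hb0) h7
      have h10 : (4 * (bad.card : ℝ)) * (M * Real.exp (N * (l ^ 2 / 4)))
          < K * (M * Real.exp (N * (l ^ 2 / 4))) := by nlinarith
      have := lt_of_mul_lt_mul_right h10 (by positivity)
      linarith
    rw [hK] at h9
    exact_mod_cast h9

end Pool.Agent.DX17
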