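import Pool.Agent.DX17.Conc
import Pool.Agent.DX17.Arr

set_option autoImplicit false

/-!
# Four members with prescribed pattern (helper file for MP_d6084f_co)

`four`: `G = Perm (Fin b) ^ N` acts transitively on the words `Fin N -> Sub (Fin b) a`, so
(`card_smul_mem` with the set of the words at distance `> s` from `S`, which is less than a quarter
of all by `conc`) fewer than a quarter of the `g` are bad for a given word, and some `g` is good for
all four constant words.

`core`: combine with `arrange`; replace `e` by `e'` with `e' (inl (i, p)) = e (inl (i, g i p))`.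
`Z` is the set of the `e (inl (i, p))` for the at most `4 s` pairs (l, i) of differing letters and
`p ∈ y_l i`, so `|Z| ≤ 4 a s`.
-/

namespace Pool.Agent.DX17

open Pool.Agent.TV17

theorem four (N b a : ℕ) (S : Finset (Fin N → Sub (Fin b) a)) (M : ℝ) (hM : 0 < M)
    (hS : (Fintype.card (Sub (Fin b) a) : ℝ) ^ N ≤ M * S.card) (s : ℕ)
    (hs : (N : ℝ) * Real.log (4 * M) < ((s : ℝ) + 1) ^ 2) (w : Fin 4 → Sub (Fin b) a) :
    ∃ g : Fin N → Equiv.Perm (Fin b), ∀ l : Fin 4, ∃ y ∈ S,
      hammingDist (fun i => g i • w l) y ≤ s := by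
  have : Nonempty (Sub (Fin b) a) := ⟨w 0⟩
  have hc := conc N S M hM hS s hs
  set bad := Finset.univ.filter
    (fun x : Fin N → Sub (Fin b) a => ∀ y ∈ S, s < hammingDist x y) with hbad
  have htr : ∀ x y : Fin N → Sub (Fin b) a, ∃ g : Fin N → Equiv.Perm (Fin b), g • x = y := by
    intro x y
    choose g hg using fun i => permSub_trans (Fin b) a (x i) (y i)
    exact ⟨g, funext hg⟩
  by_contra hcon
  push Not at hcon
  have hcard : ∀ l : Fin 4, (Finset.univ.filter
      (fun g : Fin N → Equiv.Perm (Fin b) => g • (fun _ => w l) ∈ bad)).card *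
      Fintype.card (Fin N → Sub (Fin b) a) = Fintype.card (Fin N → Equiv.Perm (Fin b)) * bad.card :=
    fun l => card_smul_mem htr bad _
  have hcov : (Finset.univ : Finset (Fin N → Equiv.Perm (Fin b))) ⊆
      Finset.univ.biUnion (fun l : Fin 4 => Finset.univ.filter
        (fun g : Fin N → Equiv.Perm (Fin b) => g • (fun _ => w l) ∈ bad)) := by
    intro g _
    obtain ⟨l, hl⟩ := hcon g
    rw [Finset.mem_biUnion]
    refine ⟨l, Finset.mem_univ l, ?_⟩
    rw [Finset.mem_filter]
    refine ⟨Finset.mem_univ g, ?_⟩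
    rw [hbad, Finset.mem_filter]
    exact ⟨Finset.mem_univ _, hl⟩
  have h1 : Fintype.card (Fin N → Equiv.Perm (Fin b)) ≤ ∑ l : Fin 4, (Finset.univ.filter
      (fun g : Fin N → Equiv.Perm (Fin b) => g • (fun _ => w l) ∈ bad)).card := by
    rw [← Finset.card_univ]
    exact (Finset.card_le_card hcov).trans Finset.card_biUnion_le
  have h2 : Fintype.card (Fin N → Equiv.Perm (Fin b)) * Fintype.card (Fin N → Sub (Fin b) a) ≤
      4 * (Fintype.card (Fin N → Equiv.Perm (Fin b)) * bad.card) := by
    refine (Nat.mul_le_mul_right _ h1).trans (le_of_eq ?_)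
    rw [Finset.sum_mul, Finset.sum_congr rfl (fun l _ => hcard l), Finset.sum_const,
      Finset.card_univ, Fintype.card_fin, smul_eq_mul]
  have h3 : Fintype.card (Fin N → Sub (Fin b) a) = Fintype.card (Sub (Fin b) a) ^ N := by
    rw [Fintype.card_fun, Fintype.card_fin]
  have hG : 0 < Fintype.card (Fin N → Equiv.Perm (Fin b)) := Fintype.card_pos
  rw [← h3] at hc
  have h4 := Nat.mul_lt_mul_of_pos_left hc hG
  have h5 : Fintype.card (Fin N → Equiv.Perm (Fin b)) * (4 * bad.card) =
      4 * (Fintype.card (Fin N → Equiv.Perm (Fin b)) * bad.card) := by ring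
  omega

theorem core (N b h q a : ℕ) (X : Finset ℕ) (F : Set (Finset ℕ))
    (hX : X.card = b * N + h + q) (M : ℝ) (hM : 0 < M)
    (hF : (X.card.choose (a * N + h) : ℝ) ≤
      M * ({A : Finset ℕ | A ∈ F ∧ A ⊆ X ∧ A.card = a * N + h}.ncard : ℝ)) (s : ℕ)
    (hs : (N : ℝ) * Real.log (4 * M) < ((s : ℝ) + 1) ^ 2) (w : Fin 4 → Sub (Fin b) a) :
    ∃ (e : Idx N b h q ↪ ℕ) (A : Fin 4 → Finset ℕ) (Z : Finset ℕ), Finset.univ.map e = X ∧
      (∀ l, A l ∈ F) ∧ Z.card ≤ 4 * a * s ∧
      ∀ l, ∀ x ∈ A l, x ∈ Z ∨ x ∈ (baseSet (h := h) (q := q) (fun _ : Fin N => w l)).map e := by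
  classical
  obtain ⟨e0, he0, hS0⟩ := arrange N b h q a X F hX M hM hF
  set S : Finset (Fin N → Sub (Fin b) a) :=
    Finset.univ.filter (fun w' => (baseSet (h := h) (q := q) w').map e0 ∈ F) with hS
  have hS1 := hS0 S (fun w' => by simp [hS])
  obtain ⟨g, hg⟩ := four N b a S M hM hS1 s hs w
  choose y hyS hyd using hg
  let φ : Idx N b h q ≃ Idx N b h q :=
    Equiv.sumCongr (Equiv.prodShear (Equiv.refl (Fin N)) g) (Equiv.refl _)
  have hφ1 : ∀ i p, φ (Sum.inl (i, p)) = Sum.inl (i, g i p) := fun i p => rfl
  have hφ2 : ∀ z, φ (Sum.inr z) = Sum.inr z := fun z => rfl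
  refine ⟨φ.toEmbedding.trans e0, fun l => (baseSet (h := h) (q := q) (y l)).map e0,
    Finset.univ.biUnion (fun l : Fin 4 =>
      (Finset.univ.filter (fun i => g i • w l ≠ y l i)).biUnion
        (fun i => (y l i).1.image (fun p => e0 (Sum.inl (i, p))))), ?_, ?_, ?_, ?_⟩
  · rw [← Finset.map_map]
    have : (Finset.univ : Finset (Idx N b h q)).map φ.toEmbedding = Finset.univ := by
      simp
    rw [this]
    exact he0
  · intro l
    have := hyS l
    rw [hS, Finset.mem_filter] at this
    exact this.2
  · calc (Finset.univ.biUnion (fun l : Fin 4 =>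
      (Finset.univ.filter (fun i => g i • w l ≠ y l i)).biUnion
        (fun i => (y l i).1.image (fun p => e0 (Sum.inl (i, p)))))).card
        ≤ ∑ l : Fin 4, ((Finset.univ.filter (fun i => g i • w l ≠ y l i)).biUnion
        (fun i => (y l i).1.image (fun p => e0 (Sum.inl (i, p))))).card := Finset.card_biUnion_le
      _ ≤ ∑ _l : Fin 4, s * a := by
          refine Finset.sum_le_sum fun l _ => ?_
          calc ((Finset.univ.filter (fun i => g i • w l ≠ y l i)).biUnion
              (fun i => (y l i).1.image (fun p => e0 (Sum.inl (i, p))))).card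
              ≤ ∑ i ∈ Finset.univ.filter (fun i => g i • w l ≠ y l i),
                ((y l i).1.image (fun p => e0 (Sum.inl (i, p)))).card := Finset.card_biUnion_le
            _ ≤ ∑ i ∈ Finset.univ.filter (fun i => g i • w l ≠ y l i), a := by
                refine Finset.sum_le_sum fun i _ => ?_
                refine le_trans Finset.card_image_le ?_
                rw [(y l i).2]
            _ = (Finset.univ.filter (fun i => g i • w l ≠ y l i)).card * a := by
                rw [Finset.sum_const, smul_eq_mul]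
            _ ≤ s * a := Nat.mul_le_mul_right _ (by
                have := hyd l
                unfold hammingDist at this
                exact this)
      _ = 4 * a * s := by
          simp only [Finset.sum_const, Finset.card_univ, Fintype.card_fin, smul_eq_mul]
          ring
  · intro l x hx
    rw [Finset.mem_map] at hx
    obtain ⟨z, hz, rfl⟩ := hx
    unfold baseSet at hz
    rw [Finset.mem_disjSum] at hz
    rcases hz with ⟨⟨i, p⟩, hz, rfl⟩ | ⟨z', hz, rfl⟩
    · have hp : p ∈ (y l i).1 := (Finset.mem_filter.1 hz).2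
      by_cases hne : g i • w l = y l i
      · right
        rw [← hne, permSub_val, Finset.mem_map] at hp
        obtain ⟨p', hp', hpp⟩ := hp
        rw [Finset.mem_map]
        refine ⟨Sum.inl (i, p'), ?_, ?_⟩
        · unfold baseSet
          rw [Finset.inl_mem_disjSum, Finset.mem_filter]
          exact ⟨Finset.mem_univ _, hp'⟩
        · have h1 : g i p' = p := hpp
          change e0 (φ (Sum.inl (i, p'))) = _
          rw [hφ1, h1]
      · left
        rw [Finset.mem_biUnion]
        refine ⟨l, Finset.mem_univ _, ?_⟩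
        rw [Finset.mem_biUnion]
        refine ⟨i, Finset.mem_filter.2 ⟨Finset.mem_univ _, hne⟩, ?_⟩
        rw [Finset.mem_image]
        exact ⟨p, hp, rfl⟩
    · right
      rw [Finset.mem_map]
      refine ⟨Sum.inr z', ?_, ?_⟩
      · unfold baseSet
        rw [Finset.inr_mem_disjSum]
        exact hz
      · change e0 (φ (Sum.inr z')) = _
        rw [hφ2]

end Pool.Agent.DX17
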