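import Pool.Agent.DX17.Arr

set_option autoImplicit false

/-!
# Large ground set (helper file for MP_d6084f_co)

Blocks `{0,...,4}`, the four patterns are the pairs of `{0,1,2}` and `{3,4}`.

Paper proof. Let `H` be the fixed points. If the conclusion fails take members `D5` missing `H ∪ Z`,
`D6` missing `H ∪ Z` and one half of `D5`, `D7` missing `H ∪ Z` and the other half of `D5`
(`exists_split`). Points of `H ∪ Z` are in none of `D5, D6, D7` and no point is in all three of
them; a point outside `H ∪ Z` lies in at most two of `A 0, A 1, A 2` and then not in `A 3`, or only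
in `A 3`: so two points outside `H ∪ Z` never cover `A 0, ..., A 3`.
-/

namespace Pool.Agent.DX17

open Pool.Agent.TV17

/-- the four patterns on a block of five points -/
def wThree : Fin 4 → Sub (Fin 5) 2 :=
  ![⟨{0, 1}, by decide⟩, ⟨{0, 2}, by decide⟩, ⟨{1, 2}, by decide⟩, ⟨{3, 4}, by decide⟩]

theorem region_three (k N h q : ℕ) (F : Set (Finset ℕ)) (hF : SevenTwoCoverable F)
    (hk : ∀ A ∈ F, A.card = k) (e : Idx N 5 h q ↪ ℕ)
    (A : Fin 4 → Finset ℕ) (hA : ∀ l, A l ∈ F) (Z : Finset ℕ)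
    (hAZ : ∀ l, ∀ x ∈ A l,
      x ∈ Z ∨ x ∈ (baseSet (h := h) (q := q) (fun _ : Fin N => wThree l)).map e)
    (t : ℕ) (ht : h + Z.card + (k + 1) / 2 ≤ t) :
    ∃ T : Finset ℕ, T.card ≤ t ∧ ∀ D ∈ F, ∃ x ∈ T, x ∈ D := by
  classical
  by_contra hcon
  push Not at hcon
  obtain ⟨H, hH⟩ : ∃ H : Finset ℕ,
      H = Finset.univ.image (fun i : Fin h => e (Sum.inr (Sum.inl i))) := ⟨_, rfl⟩
  have hHc : H.card ≤ h := by
    rw [hH]
    exact Finset.card_image_le.trans (by simp)
  have hH0 := Finset.card_union_le H Z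
  obtain ⟨D5, hD5F, hD5⟩ := hcon (H ∪ Z) (by omega)
  obtain ⟨P, Q, hPQ, hP, hQ⟩ := exists_split D5
  have hk5 := hk D5 hD5F
  have hP' : P.card ≤ (k + 1) / 2 := by omega
  have hQ' : Q.card ≤ (k + 1) / 2 := by omega
  obtain ⟨D6, hD6F, hD6⟩ := hcon (H ∪ Z ∪ P)
    (by have := Finset.card_union_le (H ∪ Z) P; omega)
  obtain ⟨D7, hD7F, hD7⟩ := hcon (H ∪ Z ∪ Q)
    (by have := Finset.card_union_le (H ∪ Z) Q; omega)
  have hno : ∀ z, z ∈ D5 → z ∈ D6 → z ∈ D7 → False := by
    intro z h5 h6 h7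
    rw [← hPQ] at h5
    rcases Finset.mem_union.1 h5 with hz | hz
    · exact hD6 z (Finset.mem_union_right _ hz) h6
    · exact hD7 z (Finset.mem_union_right _ hz) h7
  have hmiss : ∀ z, z ∈ H ∪ Z → z ∉ D5 ∧ z ∉ D6 ∧ z ∉ D7 := by
    intro z hz
    exact ⟨hD5 z hz, hD6 z (Finset.mem_union_left _ hz), hD7 z (Finset.mem_union_left _ hz)⟩
  obtain ⟨x, y, hxy⟩ := hF (insert D5 (insert D6 (insert D7 (Finset.univ.image A))))
    (by
      intro D hD
      simp only [Finset.coe_insert, Finset.coe_image, Finset.coe_univ, Set.image_univ,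
        Set.mem_insert_iff, Set.mem_range] at hD
      rcases hD with rfl | rfl | rfl | ⟨l, rfl⟩
      · exact hD5F
      · exact hD6F
      · exact hD7F
      · exact hA l)
    (by
      have c1 := Finset.card_insert_le D5 (insert D6 (insert D7 (Finset.univ.image A)))
      have c2 := Finset.card_insert_le D6 (insert D7 (Finset.univ.image A))
      have c3 := Finset.card_insert_le D7 (Finset.univ.image A)
      have c4 : (Finset.univ.image A).card ≤ 4 := Finset.card_image_le.trans (by simp)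
      omega)
  have e5 := hxy D5 (by simp)
  have e6 := hxy D6 (by simp)
  have e7 := hxy D7 (by simp)
  have eA : ∀ l, x ∈ A l ∨ y ∈ A l := fun l => hxy (A l) (by simp)
  have hx0 : x ∉ H ∪ Z := by
    intro hx
    obtain ⟨m5, m6, m7⟩ := hmiss x hx
    exact hno y (e5.resolve_left m5) (e6.resolve_left m6) (e7.resolve_left m7)
  have hy0 : y ∉ H ∪ Z := by
    intro hy
    obtain ⟨m5, m6, m7⟩ := hmiss y hy
    exact hno x (e5.resolve_right m5) (e6.resolve_right m6) (e7.resolve_right m7)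
  have hpos : ∀ z, z ∉ H ∪ Z → ∀ l, z ∈ A l → ∃ (i : Fin N) (j : Fin 5),
      e (Sum.inl (i, j)) = z ∧ j ∈ (wThree l).1 := by
    intro z hz l hl
    rw [Finset.mem_union, not_or] at hz
    rcases hAZ l z hl with hzZ | hzb
    · exact absurd hzZ hz.2
    · obtain ⟨u, hu, hez⟩ := Finset.mem_map.1 hzb
      rcases u with ⟨i, j⟩ | (u | u)
      · refine ⟨i, j, hez, ?_⟩
        have h1 := Finset.inl_mem_disjSum.1 hu
        exact (Finset.mem_filter.1 h1).2
      · exfalso
        apply hz.1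
        rw [hH, Finset.mem_image]
        exact ⟨u, Finset.mem_univ _, hez⟩
      · exfalso
        have h1 := Finset.inr_mem_disjSum.1 hu
        have h2 := Finset.inr_mem_disjSum.1 h1
        exact absurd h2 (Finset.notMem_empty _)
  have key : ∀ z, z ∉ H ∪ Z → ∃ j : Fin 5, ∀ l, z ∈ A l → j ∈ (wThree l).1 := by
    intro z hz
    by_cases hex : ∃ l, z ∈ A l
    · obtain ⟨l0, hl0⟩ := hex
      obtain ⟨i, j, hez, _⟩ := hpos z hz l0 hl0
      refine ⟨j, fun l hl => ?_⟩
      obtain ⟨i', j', hez', hj'⟩ := hpos z hz l hl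
      have h1 : (Sum.inl (i, j) : Idx N 5 h q) = Sum.inl (i', j') :=
        e.injective (hez.trans hez'.symm)
      have h2 : (i, j) = (i', j') := Sum.inl_injective h1
      rw [(Prod.mk.inj h2).2]
      exact hj'
    · exact ⟨0, fun l hl => absurd ⟨l, hl⟩ hex⟩
  obtain ⟨jx, hjx⟩ := key x hx0
  obtain ⟨jy, hjy⟩ := key y hy0
  have hdec : ∀ j j' : Fin 5, ∃ l : Fin 4, j ∉ (wThree l).1 ∧ j' ∉ (wThree l).1 := by decide
  obtain ⟨l, hl1, hl2⟩ := hdec jx jy
  rcases eA l with hl | hl
  · exact hl1 (hjx l hl)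
  · exact hl2 (hjy l hl)

end Pool.Agent.DX17
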