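import Pool.Agent.DX17.Arr

set_option autoImplicit false

/-!
# Middle range (helper file for MP_d6084f_co)

Blocks `{0,...,5}` with the pairs `{0,1}`, `{2,3}`, `{4,5}`; the four patterns are such that every
point lies in two of them and the two points of a pair in complementary ones.

Paper proof. Let `H` be the fixed points, `T_j = H ∪ Z ∪ (the j-th pair of every block) ∪ (a third
of the unused points)`, of size at most `t`. If the conclusion fails take members `D_j` missing
`T_j`. The seven members `A l`, `D_j` have no 2-cover `{x, y}`. Every point of `X` is in some `T_j`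
and members lie in `X`, so every point is missed by some `D_j`, and the points of `H ∪ Z` are missed
by all three: this settles the case that one of `x`, `y` lies in `H ∪ Z`. Otherwise `x` lies in at
most two `A l`, given by its position; if `x`, `y` are in pairs of the same number `j`, `D_j`
misses both; otherwise some `A l` misses both.
-/

namespace Pool.Agent.DX17

open Pool.Agent.TV17

/-- the four patterns on a block of six points -/
def wTwo : Fin 4 → Sub (Fin 6) 3 :=
  ![⟨{1, 3, 5}, by decide⟩, ⟨{1, 2, 4}, by decide⟩, ⟨{0, 3, 4}, by decide⟩,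
    ⟨{0, 2, 5}, by decide⟩]

theorem rtwo_pair : ∀ p p' : Fin 6, (∀ l : Fin 4, p ∈ (wTwo l).1 ∨ p' ∈ (wTwo l).1) →
    p.val / 2 = p'.val / 2 := by decide

theorem rtwo_miss : ∀ p : Fin 6, ∃ l : Fin 4, p ∉ (wTwo l).1 := by decide

/-- the indices of the `j`-th set -/
def rtwoS (N h q j : ℕ) : Finset (Idx N 6 h q) :=
  ((Finset.univ : Finset (Fin N)) ×ˢ
    ((Finset.univ : Finset (Fin 6)).filter (fun p => p.val / 2 = j))).disjSum
    ((Finset.univ : Finset (Fin h)).disjSum
      ((Finset.univ : Finset (Fin q)).filter (fun i => i.val % 3 = j)))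

theorem rtwo_card (N h q j : ℕ) (hj : j < 3) : (rtwoS N h q j).card ≤ h + 2 * N + (q + 2) / 3 := by
  unfold rtwoS
  rw [Finset.card_disjSum, Finset.card_disjSum, Finset.card_product, Finset.card_univ,
    Finset.card_univ, Fintype.card_fin, Fintype.card_fin]
  have h1 : ((Finset.univ : Finset (Fin 6)).filter (fun p => p.val / 2 = j)).card = 2 := by
    interval_cases j <;> decide
  have h2 : ((Finset.univ : Finset (Fin q)).filter (fun i => i.val % 3 = j)).card ≤
      (q + 2) / 3 := by
    have h3 : ((Finset.univ : Finset (Fin q)).filter (fun i => i.val % 3 = j)).card ≤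
        (Finset.range ((q + 2) / 3)).card := by
      refine Finset.card_le_card_of_injOn (fun i => i.val / 3) ?_ ?_
      · intro i _
        have := i.2
        rw [Finset.mem_coe, Finset.mem_range]
        change i.val / 3 < (q + 2) / 3
        omega
      · intro i hi i' hi' h
        rw [Finset.mem_coe, Finset.mem_filter] at hi hi'
        apply Fin.ext
        simp only [] at h
        omega
    rwa [Finset.card_range] at h3
  rw [h1]
  omega

theorem region_two (N h q : ℕ) (F : Set (Finset ℕ)) (hF : SevenTwoCoverable F)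
    (e : Idx N 6 h q ↪ ℕ) (hsub : ∀ A ∈ F, A ⊆ Finset.univ.map e)
    (A : Fin 4 → Finset ℕ) (hA : ∀ l, A l ∈ F) (Z : Finset ℕ)
    (hAZ : ∀ l, ∀ x ∈ A l,
      x ∈ Z ∨ x ∈ (baseSet (h := h) (q := q) (fun _ : Fin N => wTwo l)).map e)
    (t : ℕ) (ht : h + Z.card + 2 * N + (q + 2) / 3 ≤ t) :
    ∃ T : Finset ℕ, T.card ≤ t ∧ ∀ D ∈ F, ∃ x ∈ T, x ∈ D := by
  classical
  by_contra hcon
  push Not at hcon
  have hD : ∀ j : Fin 3, ∃ D ∈ F, ∀ x ∈ (rtwoS N h q j.val).map e ∪ Z, x ∉ D := by
    intro j
    refine hcon _ ?_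
    have h1 := Finset.card_union_le ((rtwoS N h q j.val).map e) Z
    rw [Finset.card_map] at h1
    have h2 := rtwo_card N h q j.val j.2
    omega
  choose D hDF hDm using hD
  -- the seven members
  obtain ⟨x, y, hxy⟩ := hF (Finset.univ.image A ∪ Finset.univ.image D) (by
    intro B hB
    rw [Finset.mem_coe, Finset.mem_union, Finset.mem_image, Finset.mem_image] at hB
    rcases hB with ⟨l, -, rfl⟩ | ⟨j, -, rfl⟩
    · exact hA l
    · exact hDF j) (by
    have h1 := Finset.card_union_le (Finset.univ.image A) (Finset.univ.image D)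
    have h2 : (Finset.univ.image A).card ≤ 4 := by
      have := Finset.card_image_le (s := (Finset.univ : Finset (Fin 4))) (f := A)
      simpa using this
    have h3 : (Finset.univ.image D).card ≤ 3 := by
      have := Finset.card_image_le (s := (Finset.univ : Finset (Fin 3))) (f := D)
      simpa using this
    omega)
  have hAc : ∀ l, x ∈ A l ∨ y ∈ A l := fun l => hxy _ (Finset.mem_union_left _
    (Finset.mem_image_of_mem A (Finset.mem_univ l)))
  have hDc : ∀ j, x ∈ D j ∨ y ∈ D j := fun j => hxy _ (Finset.mem_union_right _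
    (Finset.mem_image_of_mem D (Finset.mem_univ j)))
  -- no point is in all `D j`
  have hnall : ∀ z, ∃ j, z ∉ D j := by
    intro z
    by_cases hz : z ∈ Finset.univ.map e
    · rw [Finset.mem_map] at hz
      obtain ⟨i, -, rfl⟩ := hz
      rcases i with ⟨i, p⟩ | i | i
      · have hp : p.val / 2 < 3 := by have := p.2; omega
        refine ⟨⟨p.val / 2, hp⟩, hDm _ _ (Finset.mem_union_left _ ?_)⟩
        rw [Finset.mem_map']
        simp [rtwoS]
      · refine ⟨0, hDm _ _ (Finset.mem_union_left _ ?_)⟩
        rw [Finset.mem_map']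
        simp [rtwoS]
      · refine ⟨⟨i.val % 3, Nat.mod_lt _ (by norm_num)⟩, hDm _ _ (Finset.mem_union_left _ ?_)⟩
        rw [Finset.mem_map']
        simp [rtwoS]
    · exact ⟨0, fun h0 => hz (hsub _ (hDF 0) h0)⟩
  -- points which are in some `D j` are block points or unused points outside `Z`
  have hcls : ∀ z j, z ∈ D j → z ∉ Z ∧ ((∃ i p, z = e (Sum.inl (i, p)) ∧
      p.val / 2 ≠ j.val) ∨ ∃ i, z = e (Sum.inr (Sum.inr i))) := by
    intro z j hz
    have hzZ : z ∉ Z := fun h0 => hDm j z (Finset.mem_union_right _ h0) hz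
    refine ⟨hzZ, ?_⟩
    have h1 := hsub _ (hDF j) hz
    rw [Finset.mem_map] at h1
    obtain ⟨i, -, rfl⟩ := h1
    rcases i with ⟨i, p⟩ | i | i
    · left
      refine ⟨i, p, rfl, fun h0 => hDm j _ (Finset.mem_union_left _ ?_) hz⟩
      rw [Finset.mem_map']
      simp [rtwoS, h0]
    · exfalso
      refine hDm j _ (Finset.mem_union_left _ ?_) hz
      rw [Finset.mem_map']
      simp [rtwoS]
    · exact Or.inr ⟨i, rfl⟩
  -- membership in the `A l`
  have hAb : ∀ i p l, e (Sum.inl (i, p)) ∉ Z → e (Sum.inl (i, p)) ∈ A l → p ∈ (wTwo l).1 := by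
    intro i p l hz hm
    rcases hAZ l _ hm with h0 | h0
    · exact absurd h0 hz
    · rw [Finset.mem_map'] at h0
      simpa [baseSet] using h0
  have hAu : ∀ i l, e (Sum.inr (Sum.inr i)) ∉ Z → e (Sum.inr (Sum.inr i)) ∉ A l := by
    intro i l hz hm
    rcases hAZ l _ hm with h0 | h0
    · exact absurd h0 hz
    · rw [Finset.mem_map'] at h0
      simp [baseSet] at h0
  -- both `x` and `y` are in some `D j`
  obtain ⟨j1, hj1⟩ := hnall x
  obtain ⟨j2, hj2⟩ := hnall y
  have hyD : y ∈ D j1 := (hDc j1).resolve_left hj1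
  have hxD : x ∈ D j2 := (hDc j2).resolve_right hj2
  obtain ⟨hyZ, hy⟩ := hcls y j1 hyD
  obtain ⟨hxZ, hx⟩ := hcls x j2 hxD
  rcases hx with ⟨i, p, rfl, hp⟩ | ⟨i, rfl⟩
  · rcases hy with ⟨i', p', rfl, hp'⟩ | ⟨i', rfl⟩
    · have h1 := rtwo_pair p p' (fun l => (hAc l).imp (hAb i p l hxZ) (hAb i' p' l hyZ))
      have hp3 : p.val / 2 < 3 := by have := p.2; omega
      rcases hDc ⟨p.val / 2, hp3⟩ with h2 | h2
      · refine hDm _ _ (Finset.mem_union_left _ ?_) h2
        rw [Finset.mem_map']
        simp [rtwoS]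
      · refine hDm _ _ (Finset.mem_union_left _ ?_) h2
        rw [Finset.mem_map']
        simp [rtwoS, h1]
    · obtain ⟨l, hl⟩ := rtwo_miss p
      rcases hAc l with h2 | h2
      · exact hl (hAb i p l hxZ h2)
      · exact hAu i' l hyZ h2
  · rcases hy with ⟨i', p', rfl, hp'⟩ | ⟨i', rfl⟩
    · obtain ⟨l, hl⟩ := rtwo_miss p'
      rcases hAc l with h2 | h2
      · exact hAu i l hxZ h2
      · exact hl (hAb i' p' l hyZ h2)
    · rcases hAc 0 with h2 | h2
      · exact hAu i 0 hxZ h2
      · exact hAu i' 0 hyZ h2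

end Pool.Agent.DX17
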