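import Pool.Agent.DX17.Four
import Pool.Agent.DX17.RTwo
import Pool.Agent.DX17.RThree

set_option autoImplicit false

/-!
# Dense 7-wise 2-coverable families (helper file for MP_d6084f_co)

`n = |X|`, `K = k + r`, a proportion `δ` of the `K`-subsets of `X` contain a member. R1: members in
`X` and `4 n ≤ 4 K + 3 k`: any `n - k + 1` points of `X`. R2: members in `X`, `4 K + 3 k < 4 n` and
`8 n < 17 K`: `region_two` with `N = min (K / 3) ((n - K) / 3)`, `h = K - 3 N`,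
`q = n - K - 3 N`. R3: `17 K ≤ 8 n`: `region_three` with `N = min (K / 2) ((n - K) / 3)`,
`h = K - 2 N`, `q = n - K - 3 N`. `M = 1 / δ`, `s = floor (sqrt (N log (4 M)))`.
-/

namespace Pool.Agent.DX17

open Pool.Agent.TV17

theorem sqrt_aux (c L N k : ℝ) (hc : 0 ≤ c) (hN : 0 ≤ N) (hk : 0 ≤ k)
    (h : c ^ 2 * N ≤ 28 ^ 2 * k) : c * Real.sqrt (N * L) ≤ 28 * Real.sqrt (k * L) := by
  rcases le_or_gt 0 L with hL | hL
  · have h1 : Real.sqrt (c ^ 2 * N) ≤ Real.sqrt (28 ^ 2 * k) := Real.sqrt_le_sqrt h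
    rw [Real.sqrt_mul (sq_nonneg c), Real.sqrt_mul (by norm_num : (0 : ℝ) ≤ 28 ^ 2),
      Real.sqrt_sq hc, Real.sqrt_sq (by norm_num : (0 : ℝ) ≤ 28)] at h1
    rw [Real.sqrt_mul hN, Real.sqrt_mul hk]
    calc c * (Real.sqrt N * Real.sqrt L) = (c * Real.sqrt N) * Real.sqrt L := by ring
      _ ≤ (28 * Real.sqrt k) * Real.sqrt L := mul_le_mul_of_nonneg_right h1 (Real.sqrt_nonneg _)
      _ = _ := by ring
  · have h1 : N * L ≤ 0 := mul_nonpos_of_nonneg_of_nonpos hN hL.le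
    rw [Real.sqrt_eq_zero_of_nonpos h1, mul_zero]
    positivity

theorem floor_aux (x : ℝ) : x < ((⌊Real.sqrt x⌋₊ : ℝ) + 1) ^ 2 :=
  Real.lt_sq_of_sqrt_lt (Nat.lt_floor_add_one _)

theorem ncard_aux (F : Set (Finset ℕ)) (X : Finset ℕ) (δ : ℝ) (hδ : 0 < δ) (K : ℕ)
    (hd : δ * (X.card.choose K : ℝ) ≤
      ({B : Finset ℕ | B ⊆ X ∧ B.card = K ∧ ∃ A ∈ F, A ⊆ B}.ncard : ℝ)) (m : ℕ) (hm : m = K) :
    (X.card.choose m : ℝ) ≤ (1 / δ) *
      ({B : Finset ℕ | B ∈ {B : Finset ℕ | ∃ A ∈ F, A ⊆ B} ∧ B ⊆ X ∧ B.card = m}.ncard : ℝ) := by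
  subst hm
  have h1 : {B : Finset ℕ | B ∈ {B : Finset ℕ | ∃ A ∈ F, A ⊆ B} ∧ B ⊆ X ∧ B.card = m} =
      {B : Finset ℕ | B ⊆ X ∧ B.card = m ∧ ∃ A ∈ F, A ⊆ B} := by
    ext A
    simp only [Set.mem_setOf_eq]
    exact ⟨fun h => ⟨h.2.1, h.2.2, h.1⟩, fun h => ⟨h.2.2, h.1, h.2.1⟩⟩
  rw [h1, one_div, inv_mul_eq_div, le_div_iff₀ hδ, mul_comm]
  exact hd

/-- `core` for the sets containing a member -/
theorem core_up (N b h q a : ℕ) (X : Finset ℕ) (F : Set (Finset ℕ))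
    (hX : X.card = b * N + h + q) (M : ℝ) (hM : 0 < M)
    (hF : (X.card.choose (a * N + h) : ℝ) ≤ M *
      ({B : Finset ℕ | B ∈ {B : Finset ℕ | ∃ A ∈ F, A ⊆ B} ∧ B ⊆ X ∧
        B.card = a * N + h}.ncard : ℝ)) (s : ℕ)
    (hs : (N : ℝ) * Real.log (4 * M) < ((s : ℝ) + 1) ^ 2) (w : Fin 4 → Sub (Fin b) a) :
    ∃ (e : Idx N b h q ↪ ℕ) (A : Fin 4 → Finset ℕ) (Z : Finset ℕ), Finset.univ.map e = X ∧
      (∀ l, A l ∈ F) ∧ Z.card ≤ 4 * a * s ∧
      ∀ l, ∀ x ∈ A l, x ∈ Z ∨ x ∈ (baseSet (h := h) (q := q) (fun _ : Fin N => w l)).map e := by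
  obtain ⟨e, B, Z, he, hB, hZ, hBZ⟩ := core N b h q a X {B : Finset ℕ | ∃ A ∈ F, A ⊆ B} hX M hM
    hF s hs w
  choose A hA hAB using hB
  exact ⟨e, A, Z, he, hA, hZ, fun l x hx => hBZ l x (hAB l hx)⟩

theorem main (k r : ℕ) (F : Set (Finset ℕ)) (hk : ∀ A ∈ F, A.card = k)
    (hF : SevenTwoCoverable F) (X : Finset ℕ) (δ : ℝ) (hδ : 0 < δ)
    (hd : δ * (X.card.choose (k + r) : ℝ) ≤
      ({B : Finset ℕ | B ⊆ X ∧ B.card = k + r ∧ ∃ A ∈ F, A ⊆ B}.ncard : ℝ))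
    (hX : (∀ A ∈ F, A ⊆ X) ∨ 17 * (k + r) ≤ 8 * X.card) :
    ∃ T : Finset ℕ, 4 * (T.card : ℝ) ≤
        3 * k + 4 * r + 28 * Real.sqrt ((k + r) * Real.log (4 / δ)) + 12 ∧
      ∀ A ∈ F, ∃ t ∈ T, t ∈ A := by
  classical
  have hlog : Real.log (4 / δ) = Real.log (4 * (1 / δ)) := by rw [mul_one_div]
  set L : ℝ := Real.log (4 / δ) with hL
  have hs0 : 0 ≤ Real.sqrt ((k + r) * L) := Real.sqrt_nonneg _
  have hk0' : (0 : ℝ) ≤ k := Nat.cast_nonneg k
  have hr0' : (0 : ℝ) ≤ r := Nat.cast_nonneg r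
  rcases Nat.eq_zero_or_pos k with hk0 | hkpos
  · refine ⟨∅, ?_, fun A hA => ?_⟩
    · rw [Finset.card_empty, Nat.cast_zero, mul_zero]
      positivity
    · exfalso
      obtain ⟨x, y, hxy⟩ := hF {A} (by
        intro B hB
        rw [Finset.coe_singleton, Set.mem_singleton_iff] at hB
        rw [hB]
        exact hA) (by rw [Finset.card_singleton]; norm_num)
      have hA0 : A = ∅ := Finset.card_eq_zero.mp (by rw [hk A hA, hk0])
      have h3 := hxy A (Finset.mem_singleton_self A)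
      rw [hA0] at h3
      rcases h3 with h3 | h3
      · exact Finset.notMem_empty _ h3
      · exact Finset.notMem_empty _ h3
  by_cases h3 : 17 * (k + r) ≤ 8 * X.card
  · -- R3
    obtain ⟨N, h, q, hN2, hN3, hh, hq, hNN⟩ : ∃ N h q : ℕ, 2 * N ≤ k + r ∧
        3 * N ≤ X.card - (k + r) ∧ 2 * N + h = k + r ∧ 3 * N + q = X.card - (k + r) ∧
        (k + r ≤ 2 * N + 1 ∨ X.card - (k + r) ≤ 3 * N + 2) := by
      refine ⟨min ((k + r) / 2) ((X.card - (k + r)) / 3),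
        k + r - 2 * min ((k + r) / 2) ((X.card - (k + r)) / 3),
        X.card - (k + r) - 3 * min ((k + r) / 2) ((X.card - (k + r)) / 3), ?_⟩
      omega
    set s : ℕ := ⌊Real.sqrt (N * L)⌋₊ with hs
    obtain ⟨e, A, Z, he, hA, hZ, hAZ⟩ := core_up N 5 h q 2 X F (by omega) (1 / δ) (by positivity)
      (ncard_aux F X δ hδ (k + r) hd _ hh) s (by rw [← hlog]; exact floor_aux _) wThree
    obtain ⟨T, hT, hTF⟩ := region_three k N h q F hF hk e A hA Z hAZ _ (le_refl _)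
    refine ⟨T, ?_, hTF⟩
    have h4 : 4 * T.card ≤ 3 * k + 4 * r + 12 + 32 * s := by omega
    have h5 : (4 : ℝ) * T.card ≤ 3 * k + 4 * r + 12 + 32 * s := by exact_mod_cast h4
    have h6 : (s : ℝ) ≤ Real.sqrt (N * L) := Nat.floor_le (Real.sqrt_nonneg _)
    have hNk : (2 : ℝ) * N ≤ k + r := by exact_mod_cast hN2
    have h7 := sqrt_aux 32 L N (k + r) (by norm_num) (Nat.cast_nonneg _) (by positivity)
      (by linarith)
    linarith
  · have hsub : ∀ A ∈ F, A ⊆ X := hX.resolve_right h3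
    by_cases h4 : 4 * X.card ≤ 4 * (k + r) + 3 * k
    · -- R1
      by_cases hnk : X.card < k
      · refine ⟨∅, ?_, fun A hA => ?_⟩
        · rw [Finset.card_empty, Nat.cast_zero, mul_zero]
          positivity
        · exfalso
          have h3 := Finset.card_le_card (hsub A hA)
          rw [hk A hA] at h3
          omega
      obtain ⟨T, hTX, hT⟩ := Finset.exists_subset_card_eq (s := X) (n := X.card - k + 1)
        (by omega)
      refine ⟨T, ?_, fun A hA => ?_⟩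
      · have h5 : 4 * T.card ≤ 3 * k + 4 * r + 12 := by omega
        have h6 : (4 : ℝ) * T.card ≤ 3 * k + 4 * r + 12 := by exact_mod_cast h5
        linarith
      · by_contra hcon
        push Not at hcon
        have h5 : Disjoint T A := Finset.disjoint_left.mpr hcon
        have h6 := Finset.card_le_card (Finset.union_subset hTX (hsub A hA))
        rw [Finset.card_union_of_disjoint h5, hk A hA] at h6
        omega
    · -- R2
      obtain ⟨N, h, q, hN2, hN3, hh, hq, hNN⟩ : ∃ N h q : ℕ, 3 * N ≤ k + r ∧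
          3 * N ≤ X.card - (k + r) ∧ 3 * N + h = k + r ∧ 3 * N + q = X.card - (k + r) ∧
          (k + r ≤ 3 * N + 2 ∨ X.card - (k + r) ≤ 3 * N + 2) := by
        refine ⟨min ((k + r) / 3) ((X.card - (k + r)) / 3),
          k + r - 3 * min ((k + r) / 3) ((X.card - (k + r)) / 3),
          X.card - (k + r) - 3 * min ((k + r) / 3) ((X.card - (k + r)) / 3), ?_⟩
        omega
      set s : ℕ := ⌊Real.sqrt (N * L)⌋₊ with hs
      obtain ⟨e, A, Z, he, hA, hZ, hAZ⟩ := core_up N 6 h q 3 X F (by omega) (1 / δ)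
        (by positivity) (ncard_aux F X δ hδ (k + r) hd _ hh) s
        (by rw [← hlog]; exact floor_aux _) wTwo
      obtain ⟨T, hT, hTF⟩ := region_two N h q F hF e (by rw [he]; exact hsub) A hA Z hAZ _
        (le_refl _)
      refine ⟨T, ?_, hTF⟩
      have h5 : 4 * T.card ≤ 3 * k + 4 * r + 12 + 48 * s := by omega
      have h6 : (4 : ℝ) * T.card ≤ 3 * k + 4 * r + 12 + 48 * s := by exact_mod_cast h5
      have h7 : (s : ℝ) ≤ Real.sqrt (N * L) := Nat.floor_le (Real.sqrt_nonneg _)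
      have hNk : (3 : ℝ) * N ≤ k + r := by exact_mod_cast hN2
      have h8 := sqrt_aux 48 L N (k + r) (by norm_num) (Nat.cast_nonneg _) (by positivity)
        (by linarith)
      linarith

end Pool.Agent.DX17
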